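import Pool.Agent.Helper56.MiniS.Model

/-!
MP_a7e2a1_gt, Q1: for every odd `n ≥ 3` there is a homeomorphism of `ℝⁿ` all of whose (full)
orbits are dense.

Proof: `ℝⁿ = Sⁿ ∖ {pt}`, `n = 2m+3`, `Sⁿ ⊆ ℂ^{m+2}` with the free Hopf circle action `R`. The
homeomorphism is the restriction of a uniform limit `G` of homeomorphisms `H_i R_{p_i/q_i} H_i⁻¹` of
`Sⁿ` with `G(pt) = pt` and all other orbits dense (an approximation by conjugation scheme in which
the base point is slowed down to a fixed point).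
-/

namespace Pool.Agent.Results.MP_a7e2a1_gt.OddDimensions

theorem result : ∀ n : ℕ, 3 ≤ n → Odd n →
    ∃ f : EuclideanSpace ℝ (Fin n) ≃ₜ EuclideanSpace ℝ (Fin n),
      ∀ x, Dense {y | ∃ k : ℤ, y = (f ^ k) x} := by
  intro n hn hodd
  obtain ⟨k, hk⟩ := hodd
  obtain ⟨m, rfl⟩ : ∃ m, n = 2 * m + 3 := ⟨k - 1, by omega⟩
  exact H56Mini.exists_minimal m

end Pool.Agent.Results.MP_a7e2a1_gt.OddDimensions
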